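import Pool.Agent.X260.LR.Over

/-! Property (LR) passes to finite index overgroups for hyperbolic virtually compact special groups. -/

set_option autoImplicit false

namespace Pool.Agent.Results.MP_836f52_al.HyperbolicSpecial

open Pool.Agent.H97R3.VR Pool.Agent.TH97.VR

/-- Let `K` be a finite index subgroup of a group `G`, and assume that `K` is word-hyperbolic and
virtually compact special. If `H` is a subgroup of `G` such that `H ∩ K` is a virtual retract of `K`,
then `H` is a virtual retract of `G`. In particular, if every finitely generated subgroup of `K` is a
virtual retract of `K`, then every finitely generated subgroup of `G` is a virtual retract of `G`. -/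
theorem result {G : Type} [Group G] (K : Subgroup G) (hK : K.FiniteIndex) (hyp : IsHyperbolic K)
    (hsp : VirtuallyCompactSpecial K) :
    (∀ H : Subgroup G, IsVirtualRetract (H.subgroupOf K) → IsVirtualRetract H) ∧
      ((∀ H : Subgroup K, H.FG → IsVirtualRetract H) →
        ∀ H : Subgroup G, H.FG → IsVirtualRetract H) :=
  ⟨Pool.Agent.X260.LR.vr_over K hK hyp hsp, Pool.Agent.X260.LR.lr_over K hK hyp hsp⟩

end Pool.Agent.Results.MP_836f52_al.HyperbolicSpecial
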